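import Mathlib
import Pool.Agent.W420.NS.Stm

set_option autoImplicit false

/-!
# NS-CRS, NS-ONE, NS-RE (helper237)
-/

namespace Pool.Agent.W237.NS

open Pool.Agent.W420.NS

theorem zip3 {α β γ : Type} (D : List α) (r : List β) (t : List γ) (h1 : r.length = D.length)
    (h2 : t.length = r.length) (x : α × γ) (hx : x ∈ D.zip t) :
    ∃ y, (x.1, y) ∈ D.zip r ∧ (y, x.2) ∈ r.zip t := by
  obtain ⟨i, hi, rfl⟩ := List.mem_iff_getElem.mp hx
  have hi' : i < D.length := by
    rw [List.length_zip] at hi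
    omega
  have hir : i < r.length := by omega
  have hit : i < t.length := by omega
  refine ⟨r[i], ?_, ?_⟩
  · rw [List.mem_iff_getElem]
    exact ⟨i, by rw [List.length_zip]; omega, by simp⟩
  · rw [List.mem_iff_getElem]
    exact ⟨i, by rw [List.length_zip]; omega, by simp⟩

theorem crs : S_CRS := by
  intro P c r t hcov hcrs
  obtain ⟨h1, h2, h3⟩ := hcov
  obtain ⟨g1, g2, g3⟩ := hcrs
  refine ⟨by omega, ?_, ?_⟩
  · intro x hx
    obtain ⟨y, hy1, hy2⟩ := zip3 P.D r t h1 g1 x hx
    have e1 := h2 _ hy1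
    have e2 := g2 _ hy2
    simp only at e1 e2
    rw [e1, e2]
  · intro x hx y hy hTx hTy hconn
    obtain ⟨x', hx1, hx2⟩ := zip3 P.D r t h1 g1 x hx
    obtain ⟨y', hy1, hy2⟩ := zip3 P.D r t h1 g1 y hy
    have e2 := g2 _ hx2
    have f2 := g2 _ hy2
    simp only at e2 f2
    have hTx' : isT x'.1 = true := by rw [← e2]; exact hTx
    have hTy' : isT y'.1 = true := by rw [← f2]; exact hTy
    have e3 := h3 _ hx1 _ hy1 hTx' hTy' hconn
    exact g3 _ hx2 _ hy2 hTx' hTy' e3

theorem one_aux (c : Unit → Fin 3 → ℕ) (x : (Unit × Fin 3) × (ℕ × ℕ))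
    (hx : x ∈ [(((), (0 : Fin 3)), (c () 0, 0)), (((), (1 : Fin 3)), (c () 1, 0)),
      (((), (2 : Fin 3)), (c () 2, 0))]) : c x.1.1 x.1.2 = x.2.1 ∧ x.2.2 = 0 := by
  simp only [List.mem_cons, List.not_mem_nil, or_false] at hx
  rcases hx with rfl | rfl | rfl <;> exact ⟨rfl, rfl⟩

theorem one_sound : S_ONE := by
  intro c hv _
  refine ⟨[(c () 0, 0), (c () 1, 0), (c () 2, 0)], ⟨_, _, _, hv.1 (), rfl⟩, rfl, ?_, ?_⟩
  · intro x hx
    exact (one_aux c x hx).1
  · intro x hx y hy _ _ _
    exact (one_aux c x hx).2.trans (one_aux c y hy).2.symm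

theorem mem_ord {α : Type} (σ : List ℕ) (l : List α) (x : α) (hx : x ∈ ord σ l) : x ∈ l := by
  unfold ord at hx
  rw [List.mem_filterMap] at hx
  obtain ⟨i, _, hi⟩ := hx
  exact List.mem_of_getElem? hi

theorem ord_zip {α β : Type} (σ : List ℕ) (l : List α) (m : List β) (h : l.length = m.length) :
    (ord σ l).zip (ord σ m) = ord σ (l.zip m) ∧ (ord σ l).length = (ord σ m).length := by
  induction σ with
  | nil => exact ⟨rfl, rfl⟩
  | cons i σ ih =>
    unfold ord at ih ⊢
    by_cases hi : i < l.length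
    · have hm : i < m.length := by omega
      have e1 : l[i]? = some l[i] := List.getElem?_eq_getElem hi
      have e2 : m[i]? = some m[i] := List.getElem?_eq_getElem hm
      have e3 : (l.zip m)[i]? = some (l[i], m[i]) := by
        rw [List.getElem?_eq_getElem (by rw [List.length_zip]; omega)]
        simp
      rw [List.filterMap_cons_some e1, List.filterMap_cons_some e2, List.filterMap_cons_some e3,
        List.zip_cons_cons, List.length_cons, List.length_cons, ih.1, ih.2]
      exact ⟨rfl, rfl⟩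
    · have hm : ¬ i < m.length := by omega
      have e1 : l[i]? = none := List.getElem?_eq_none (by omega)
      have e2 : m[i]? = none := List.getElem?_eq_none (by omega)
      have e3 : (l.zip m)[i]? = none := List.getElem?_eq_none (by rw [List.length_zip]; omega)
      rw [List.filterMap_cons_none e1, List.filterMap_cons_none e2, List.filterMap_cons_none e3]
      exact ih

theorem re_sound : S_RE := by
  intro A σ S hS c hv hr
  have hv' : Valid A c := hv
  have hr' : Reach A c := by
    intro x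
    obtain ⟨d, hd, hT, hc⟩ := hr x
    exact ⟨d, mem_ord σ A.D d hd, hT, hc⟩
  obtain ⟨s, hs, h1, h2, h3⟩ := hS c hv' hr'
  have hz := ord_zip σ A.D s h1.symm
  refine ⟨ord σ s, ⟨s, hs, rfl⟩, hz.2.symm, ?_, ?_⟩
  · intro x hx
    change x ∈ (ord σ A.D).zip (ord σ s) at hx
    rw [hz.1] at hx
    exact h2 x (mem_ord σ _ x hx)
  · intro x hx y hy hTx hTy hc
    change x ∈ (ord σ A.D).zip (ord σ s) at hx
    change y ∈ (ord σ A.D).zip (ord σ s) at hy
    rw [hz.1] at hx hy
    exact h3 x (mem_ord σ _ x hx) y (mem_ord σ _ y hy) hTx hTy hc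

end Pool.Agent.W237.NS
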